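import Pool.Agent.W455.EM.Stm

/-!
# Project EM, part TYP: almost all sets with one vertex in `A` and `k-1` in `B` are edges
-/

set_option autoImplicit false

namespace Pool.Agent.W2.EM.TYP

open Finset Pool.Agent.FracEM.PMT Pool.Agent.W455.EM

/-- A `k`-partite structure on `W`, with part `0` equal to `A`, gives the perfect matching. -/
theorem core (m N n : ℕ) (H : Finset (Finset (Fin n))) (A W : Finset (Fin n))
    (φ : Fin (m + 1) → Fin N → Fin n)
    (hinj : ∀ i j x y, φ i x = φ j y → i = j ∧ x = y)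
    (hW : ∀ i x, φ i x ∈ W) (hsurj : ∀ v ∈ W, ∃ i x, φ i x = v)
    (hA0 : ∀ x, φ 0 x ∈ A) (hA1 : ∀ (i : Fin m) x, φ i.succ x ∉ A)
    (ε δ : ℝ) (hδ : 0 ≤ δ) (hn : (n : ℝ) ≤ 2 * (m + 1) * N)
    (hδε : δ * (2 * ((m : ℝ) + 1)) ^ m ≤ ε)
    (hdeg : ∀ v ∈ W, (((W.powersetCard (m + 1)).filter
      (fun e => v ∈ e ∧ (e ∩ A).card = 1 ∧ e ∉ H)).card : ℝ) ≤ δ * (n : ℝ) ^ m)
    (hD : ∀ R : (Fin (m + 1) → Fin N) → Prop,
      (∀ (i : Fin (m + 1)) (x : Fin N),
        (({t : Fin (m + 1) → Fin N | t i = x ∧ ¬ R t}.ncard : ℕ) : ℝ) ≤ ε * (N : ℝ) ^ m) →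
      ∃ σ : Fin (m + 1) → Equiv.Perm (Fin N), ∀ j : Fin N, R (fun i => σ i j)) :
    PMon H W := by
  classical
  let E : (Fin (m + 1) → Fin N) → Finset (Fin n) := fun t => univ.image fun i => φ i (t i)
  have hEinj : ∀ t t', E t = E t' → t = t' := by
    intro t t' h
    funext i
    have h1 : φ i (t i) ∈ E t' := by
      rw [← h]
      exact mem_image_of_mem _ (mem_univ i)
    obtain ⟨j, _, hj⟩ := mem_image.1 h1
    obtain ⟨h2, h3⟩ := hinj _ _ _ _ hj
    rw [← h3, h2]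
  have hEcard : ∀ t, (E t).card = m + 1 := by
    intro t
    rw [card_image_of_injective]
    · simp
    · intro i j h
      exact (hinj _ _ _ _ h).1
  have hEW : ∀ t, E t ⊆ W := by
    intro t v hv
    obtain ⟨j, _, hj⟩ := mem_image.1 hv
    rw [← hj]
    exact hW _ _
  have hEA : ∀ t, E t ∩ A = {φ 0 (t 0)} := by
    intro t
    ext v
    rw [mem_inter, mem_singleton, mem_image]
    constructor
    · rintro ⟨⟨j, _, hj⟩, hv⟩
      rcases Fin.eq_zero_or_eq_succ j with h0 | ⟨i, hi⟩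
      · rw [← hj, h0]
      · exfalso
        apply hA1 i (t i.succ)
        rw [← hi, hj]
        exact hv
    · intro h
      rw [h]
      exact ⟨⟨0, mem_univ _, rfl⟩, hA0 _⟩
  obtain ⟨σ, hσ⟩ := hD (fun t => E t ∈ H) (by
    intro i x
    have h1 : ({t : Fin (m + 1) → Fin N | t i = x ∧ ¬ E t ∈ H}.ncard) ≤
        ((W.powersetCard (m + 1)).filter
          (fun e => φ i x ∈ e ∧ (e ∩ A).card = 1 ∧ e ∉ H)).card := by
      rw [← Set.ncard_coe_finset]
      apply Set.ncard_le_ncard_of_injOn E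
      · rintro t ⟨ht1, ht2⟩
        rw [mem_coe, mem_filter, mem_powersetCard]
        refine ⟨⟨hEW t, hEcard t⟩, ?_, ?_, ht2⟩
        · rw [← ht1]
          exact mem_image_of_mem _ (mem_univ i)
        · rw [hEA, card_singleton]
      · intro t _ t' _ h
        exact hEinj t t' h
    have h2 : (({t : Fin (m + 1) → Fin N | t i = x ∧ ¬ E t ∈ H}.ncard : ℕ) : ℝ) ≤
        δ * (n : ℝ) ^ m := by
      refine le_trans ?_ (hdeg (φ i x) (hW i x))
      exact_mod_cast h1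
    refine h2.trans ?_
    calc δ * (n : ℝ) ^ m ≤ δ * (2 * ((m : ℝ) + 1) * N) ^ m := by
          apply mul_le_mul_of_nonneg_left _ hδ
          apply pow_le_pow_left₀ (by positivity) hn
      _ = (δ * (2 * ((m : ℝ) + 1)) ^ m) * (N : ℝ) ^ m := by rw [mul_pow]; ring
      _ ≤ ε * (N : ℝ) ^ m := mul_le_mul_of_nonneg_right hδε (by positivity))
  refine ⟨univ.image fun j : Fin N => E (fun i => σ i j), ?_, ?_, ?_⟩
  · intro e he
    obtain ⟨j, _, hj⟩ := mem_image.1 he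
    rw [← hj]
    exact hσ j
  · intro e he e' he' hne
    obtain ⟨j, _, hj⟩ := mem_image.1 he
    obtain ⟨j', _, hj'⟩ := mem_image.1 he'
    rw [Finset.disjoint_left]
    intro v hv hv'
    rw [← hj] at hv
    rw [← hj'] at hv'
    obtain ⟨a, _, ha⟩ := mem_image.1 hv
    obtain ⟨b, _, hb⟩ := mem_image.1 hv'
    obtain ⟨h1, h2⟩ := hinj _ _ _ _ (ha.trans hb.symm)
    apply hne
    rw [← hj, ← hj']
    rw [← h1] at h2
    rw [(σ a).injective h2]
  · ext v
    rw [mem_biUnion]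
    constructor
    · rintro ⟨e, he, hv⟩
      obtain ⟨j, _, hj⟩ := mem_image.1 he
      rw [id, ← hj] at hv
      exact hEW _ hv
    · intro hv
      obtain ⟨i, x, hix⟩ := hsurj v hv
      refine ⟨E (fun i' => σ i' ((σ i).symm x)), mem_image_of_mem _ (mem_univ _), ?_⟩
      rw [id, mem_image]
      refine ⟨i, mem_univ _, ?_⟩
      change φ i ((σ i) ((σ i).symm x)) = v
      rw [Equiv.apply_symm_apply]
      exact hix

theorem main : S_DHK → S_TYP := by
  classical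
  intro hD k hk
  obtain ⟨m, rfl⟩ : ∃ m, k = m + 1 := ⟨k - 1, by omega⟩
  obtain ⟨ε, hε, N0, hN0⟩ := hD (m + 1) (by omega)
  have hpos : (0 : ℝ) < (2 * ((m : ℝ) + 1)) ^ m := by positivity
  refine ⟨ε / (2 * ((m : ℝ) + 1)) ^ m, div_pos hε hpos, 2 * (m + 1) * N0, ?_⟩
  intro n hn H A B hAB hBc hnA hdeg
  have hnA' : n ≤ 2 * (m + 1) * A.card := by exact_mod_cast hnA
  have hNN : N0 ≤ A.card := by
    apply Nat.le_of_mul_le_mul_left (hn.trans hnA') (by omega)
  have hBc' : B.card = m * A.card := by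
    rw [hBc, Nat.add_sub_cancel]
  let eA : Fin A.card ≃ A := A.equivFin.symm
  let eB : Fin m × Fin A.card ≃ B :=
    finProdFinEquiv.trans ((finCongr hBc'.symm).trans B.equivFin.symm)
  let φ : Fin (m + 1) → Fin A.card → Fin n :=
    Fin.cons (fun x => (eA x : Fin n)) (fun i x => (eB (i, x) : Fin n))
  have hφ0 : ∀ x, φ 0 x = (eA x : Fin n) := fun x => rfl
  have hφs : ∀ (i : Fin m) x, φ i.succ x = (eB (i, x) : Fin n) := fun i x => rfl
  have hA0 : ∀ x, φ 0 x ∈ A := fun x => (eA x).2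
  have hB1 : ∀ (i : Fin m) x, φ i.succ x ∈ B := fun i x => (eB (i, x)).2
  have hdis := Finset.disjoint_left.1 hAB
  have hA1 : ∀ (i : Fin m) x, φ i.succ x ∉ A := fun i x h => hdis h (hB1 i x)
  refine core m A.card n H A (A ∪ B) φ ?_ ?_ ?_ hA0 hA1 ε (ε / (2 * ((m : ℝ) + 1)) ^ m)
    (div_pos hε hpos).le ?_ ?_ ?_ ?_
  · intro i j x y h
    rcases Fin.eq_zero_or_eq_succ i with hi | ⟨i', hi⟩ <;>
    rcases Fin.eq_zero_or_eq_succ j with hj | ⟨j', hj⟩ <;> subst hi <;> subst hj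
    · rw [hφ0, hφ0] at h
      exact ⟨rfl, eA.injective (Subtype.ext h)⟩
    · exfalso
      exact hA1 j' y (h ▸ hA0 x)
    · exfalso
      exact hA1 i' x (h ▸ hA0 y)
    · rw [hφs, hφs] at h
      have h1 := eB.injective (Subtype.ext h)
      rw [Prod.mk.injEq] at h1
      exact ⟨by rw [h1.1], h1.2⟩
  · intro i x
    rcases Fin.eq_zero_or_eq_succ i with hi | ⟨i', hi⟩ <;> subst hi
    · exact mem_union_left _ (hA0 x)
    · exact mem_union_right _ (hB1 i' x)
  · intro v hv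
    rcases mem_union.1 hv with hv | hv
    · refine ⟨0, eA.symm ⟨v, hv⟩, ?_⟩
      rw [hφ0, Equiv.apply_symm_apply]
    · refine ⟨(eB.symm ⟨v, hv⟩).1.succ, (eB.symm ⟨v, hv⟩).2, ?_⟩
      rw [hφs, Prod.mk.eta, Equiv.apply_symm_apply]
  · have h1 : (n : ℝ) ≤ ((2 * (m + 1) * A.card : ℕ) : ℝ) := by exact_mod_cast hnA'
    push_cast at h1
    exact h1
  · rw [div_mul_cancel₀ _ hpos.ne']
  · intro v hv
    have h1 := hdeg v hv
    simpa using h1
  · intro R hR
    apply hN0 A.card hNN R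
    intro i x
    have h1 := hR i x
    simpa using h1

end Pool.Agent.W2.EM.TYP
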